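import Pool.Agent.W2helper37.DP.Stm

/-!
# Piece TA of project DP: selection for countably many coordinates
-/

set_option autoImplicit false

namespace Pool.Agent.W2helper52.DP

open Set Pool.Agent.H42.Dom Pool.Agent.W2helper37.DP

universe u v

theorem key {b : Prop} {X : Type u} [TopologicalSpace X] {ι : Type v} {k : ℕ} (e : Fin k → ι)
    (he : Function.Injective e)
    (hO : ∀ U : Set (ι → X), IsOpen U → IsOpen ((fun (x : ι → X) (j : Fin k) => x (e j)) '' U))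
    (hS : Sel b (Fin k → X)) (hne : ι → Nonempty X)
    (𝒱 : ℕ → Set (Set (ι → X))) (ho : ∀ n, ∀ V ∈ 𝒱 n, IsOpen V)
    (hH : ∀ n, Hits (range e) (𝒱 n)) :
    ∃ F : ℕ → Set (Set (ι → X)), (∀ n, F n ⊆ 𝒱 n ∧ Sm b (F n)) ∧
      ∀ (q : ℕ) (G : Fin q → Set (Fin k → X)), (∀ a, IsOpen (G a) ∧ (G a).Nonempty) →
        ∃ V ∈ ⋃ n, F n, ∀ a, ∃ x ∈ V, (fun j => x (e j)) ∈ G a := by
  classical
  by_cases h : ∃ j, ∃ V ∈ 𝒱 j, univ ⊆ closure ((fun (x : ι → X) (j : Fin k) => x (e j)) '' V)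
  · obtain ⟨j, V, hV, hd⟩ := h
    refine ⟨fun j' => {W | j' = j ∧ W = V}, fun n => ⟨?_, ?_, fun _ => ?_⟩, fun q G hG => ?_⟩
    · rintro W ⟨rfl, rfl⟩
      exact hV
    · exact (finite_singleton V).subset fun W hW => hW.2
    · rintro W ⟨-, h1⟩ W' ⟨-, h2⟩
      rw [h1, h2]
    · refine ⟨V, mem_iUnion.2 ⟨j, rfl, rfl⟩, fun a => ?_⟩
      obtain ⟨z, hz⟩ := (hG a).2
      obtain ⟨y, hy, x, hx, rfl⟩ := mem_closure_iff.1 (hd (mem_univ z)) (G a) (hG a).1 hz
      exact ⟨x, hx, hy⟩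
  · push Not at h
    have hD : ∀ n, DOm ((fun V : Set (ι → X) =>
        (fun (x : ι → X) (j : Fin k) => x (e j)) '' V) '' 𝒱 n) := by
      intro n
      apply mk_dom
      · rintro _ ⟨V, hV, rfl⟩
        exact ⟨hO V (ho n V hV), h n V hV⟩
      · intro F hF hFo
        obtain ⟨q, G, -, rfl⟩ := hF.fin_param
        have h1 : ∀ a : Fin q, ∃ (y : Fin k → X) (w : Fin k → Set X),
            (∀ j, IsOpen (w j) ∧ y j ∈ w j) ∧ univ.pi w ⊆ G a := by
          intro a
          obtain ⟨y, hy⟩ := (hFo (G a) (mem_range_self a)).2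
          obtain ⟨w, hw⟩ := isOpen_pi_iff'.1 (hFo (G a) (mem_range_self a)).1 y hy
          exact ⟨y, w, hw⟩
        choose y w hw hwG using h1
        obtain ⟨V, hV, hx⟩ := hH n q (Finset.univ.image e)
          (fun a i => ⋂ j : Fin k, {t | e j = i → t ∈ w a j})
          (by
            intro i hi
            rw [Finset.mem_image] at hi
            obtain ⟨j, -, rfl⟩ := hi
            exact mem_range_self j)
          (by
            intro a i
            refine ⟨isOpen_iInter_of_finite fun j => ?_, ?_⟩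
            · by_cases hj : e j = i
              · simpa [hj] using (hw a j).1
              · simp [hj]
            · by_cases hi : i ∈ range e
              · obtain ⟨j, rfl⟩ := hi
                refine ⟨y a j, mem_iInter.2 fun j' hj' => ?_⟩
                rw [he hj']
                exact (hw a j).2
              · obtain ⟨t⟩ := hne i
                exact ⟨t, mem_iInter.2 fun j' hj' => absurd ⟨j', hj'⟩ hi⟩)
        refine ⟨_, ⟨V, hV, rfl⟩, ?_⟩
        rintro _ ⟨a, rfl⟩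
        obtain ⟨x, hxV, hx⟩ := hx a
        refine ⟨fun j => x (e j), ⟨x, hxV, rfl⟩, hwG a fun j _ => ?_⟩
        exact mem_iInter.1 (hx (e j) (Finset.mem_image_of_mem e (Finset.mem_univ j))) j rfl
    obtain ⟨F', hF', hF'D⟩ := hS _ hD
    have h2 : ∀ n, ∀ W ∈ F' n, ∃ V ∈ 𝒱 n,
        (fun (x : ι → X) (j : Fin k) => x (e j)) '' V = W := fun n W hW => (hF' n).1 hW
    choose! g hg hgW using h2
    refine ⟨fun n => g n '' F' n, fun n => ⟨?_, (hF' n).2.1.image _, fun hb =>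
      ((hF' n).2.2 hb).image _⟩, fun q G hG => ?_⟩
    · rintro _ ⟨W, hW, rfl⟩
      exact hg n W hW
    · obtain ⟨U, hU, hUG⟩ := hF'D.2.2.2 (range G) (finite_range G)
        (by rintro _ ⟨a, rfl⟩; exact hG a)
      obtain ⟨n, hn⟩ := mem_iUnion.1 hU
      refine ⟨g n U, mem_iUnion.2 ⟨n, U, hn, rfl⟩, fun a => ?_⟩
      obtain ⟨z, hz1, hz2⟩ := hUG (G a) (mem_range_self a)
      rw [← hgW n U hn] at hz1
      obtain ⟨x, hx, rfl⟩ := hz1
      exact ⟨x, hx, hz2⟩

theorem p_ta : P_OPM.{u, v} → P_TA.{u, v} := by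
  intro hopm b X _ ι hS A hA 𝒱 ho hH
  classical
  by_cases hX : IsEmpty X ∧ Nonempty ι
  · obtain ⟨hX, ⟨i₀⟩⟩ := hX
    obtain ⟨V, hV, -⟩ := hH 0 0 ∅ (fun a => a.elim0) (fun i hi => absurd hi (Finset.notMem_empty i))
      (fun a => a.elim0)
    refine ⟨fun n => {W | n = 0 ∧ W = V}, fun n => ⟨?_, ?_, fun _ => ?_⟩, ?_⟩
    · rintro W ⟨rfl, rfl⟩
      exact hV
    · exact (finite_singleton V).subset fun W hW => hW.2
    · rintro W ⟨-, h1⟩ W' ⟨-, h2⟩
      rw [h1, h2]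
    · intro m s G hs hG
      refine ⟨V, mem_iUnion.2 ⟨0, rfl, rfl⟩, fun a => ?_⟩
      obtain ⟨x, -⟩ := (hG a i₀).2
      exact hX.elim x
  have hne : ι → Nonempty X := by
    intro i
    by_contra h
    exact hX ⟨not_nonempty_iff.1 h, ⟨i⟩⟩
  have hAc : Countable A := hA.to_subtype
  have hc : ∀ k : ℕ, Countable {e : Fin k → ι // Function.Injective e ∧ ∀ j, e j ∈ A} := by
    intro k
    refine Function.Injective.countable
      (f := fun (e : {e : Fin k → ι // Function.Injective e ∧ ∀ j, e j ∈ A}) (j : Fin k) =>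
        (⟨e.1 j, e.2.2 j⟩ : A)) ?_
    intro e e' h
    apply Subtype.ext
    funext j
    exact congrArg Subtype.val (congrFun h j)
  have hcT : Countable (Σ k : ℕ, {e : Fin k → ι // Function.Injective e ∧ ∀ j, e j ∈ A}) :=
    inferInstance
  have hnT : Nonempty (Σ k : ℕ, {e : Fin k → ι // Function.Injective e ∧ ∀ j, e j ∈ A}) :=
    ⟨⟨0, fun j => j.elim0, fun j => j.elim0, fun j => j.elim0⟩⟩
  obtain ⟨σ, hσ⟩ := exists_surjective_nat
    (Σ k : ℕ, {e : Fin k → ι // Function.Injective e ∧ ∀ j, e j ∈ A})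
  have hk : ∀ (m : ℕ) (t : Σ k : ℕ, {e : Fin k → ι // Function.Injective e ∧ ∀ j, e j ∈ A}),
      ∃ F : ℕ → Set (Set (ι → X)), (∀ n, F n ⊆ 𝒱 (Nat.pair m n) ∧ Sm b (F n)) ∧
      ∀ (q : ℕ) (G : Fin q → Set (Fin t.1 → X)), (∀ a, IsOpen (G a) ∧ (G a).Nonempty) →
        ∃ V ∈ ⋃ n, F n, ∀ a, ∃ x ∈ V, (fun j => x (t.2.1 j)) ∈ G a := by
    rintro m ⟨k, e, he, heA⟩
    refine key e he (hopm e he) (hS k) hne (fun n => 𝒱 (Nat.pair m n)) (fun n => ho _)
      (fun n q s G hs hG => hH _ q s G (fun i hi => ?_) hG)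
    obtain ⟨j, rfl⟩ := hs i hi
    exact heA j
  choose F hF hFH using fun m => hk m (σ m)
  refine ⟨fun n => F n.unpair.1 n.unpair.2, fun n => ?_, ?_⟩
  · have h1 := hF n.unpair.1 n.unpair.2
    rw [Nat.pair_unpair] at h1
    exact h1
  · intro q s G hs hG
    obtain ⟨m, hm⟩ := hσ ⟨s.card, fun j => (s.equivFin.symm j : ι),
      fun i j hij => s.equivFin.symm.injective (Subtype.ext hij),
      fun j => hs _ (s.equivFin.symm j).2⟩
    have h2 := hFH m
    rw [hm] at h2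
    obtain ⟨V, hV, hx⟩ := h2 q (fun a => univ.pi fun j => G a (s.equivFin.symm j : ι)) (fun a =>
      ⟨isOpen_set_pi finite_univ fun j _ => (hG a _).1,
        univ_pi_nonempty_iff.2 fun j => (hG a _).2⟩)
    obtain ⟨n, hn⟩ := mem_iUnion.1 hV
    refine ⟨V, mem_iUnion.2 ⟨Nat.pair m n, ?_⟩, fun a => ?_⟩
    · rw [Nat.unpair_pair]
      exact hn
    · obtain ⟨x, hxV, hx⟩ := hx a
      refine ⟨x, hxV, fun i hi => ?_⟩
      have h3 := hx (s.equivFin ⟨i, hi⟩) (mem_univ _)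
      simpa using h3

end Pool.Agent.W2helper52.DP
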